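import Pool.Agent.H39.EAG.DTR

/-!
# MP_a10695_co: pairs `(a, b)` and common neighbours of cliques
-/

set_option autoImplicit false

open Finset

namespace Pool.Agent.H39.EAG

open Classical in
/-- the common neighbours -/
noncomputable def cn {V : Type} [Fintype V] (G : SimpleGraph V) (K : Finset V) : Finset V :=
  univ.filter fun v => ∀ x ∈ K, G.Adj x v

theorem mem_cn {V : Type} [Fintype V] (G : SimpleGraph V) (K : Finset V) (v : V) :
    v ∈ cn G K ↔ ∀ x ∈ K, G.Adj x v := by
  simp [cn]

/-- `k` vertices absorb an independent set without common neighbours of them -/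
theorem chi_absorb (hA : T_CHA) {V : Type} [Fintype V] [DecidableEq V]
    (G : SimpleGraph V) (K C : Finset V) (hC : Ind G C) (hKC : Disjoint K C)
    (h : ∀ v ∈ C, v ∉ cn G K) : chi G (K ∪ C) ≤ K.card := by
  obtain ⟨h1, -, -, -, -⟩ := hA V G
  refine (h1 _ _).1 ?_
  have hf : ∀ v ∈ C, ∃ u ∈ K, ¬ G.Adj u v := by
    intro v hv
    have := h v hv
    rw [mem_cn] at this
    push Not at this
    exact this
  choose! f hf1 hf2 using hf
  obtain ⟨e, he1, he2⟩ : ∃ e : V → ℕ, (∀ v ∈ K, e v < K.card) ∧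
      ∀ u ∈ K, ∀ v ∈ K, e u = e v → u = v := by
    refine ⟨fun v => if hv : v ∈ K then (K.equivFin ⟨v, hv⟩ : ℕ) else 0, fun v hv => ?_,
      fun u hu v hv huv => ?_⟩
    · dsimp only
      rw [dif_pos hv]
      exact Fin.isLt _
    · dsimp only at huv
      rw [dif_pos hu, dif_pos hv] at huv
      have := K.equivFin.injective (Fin.ext huv)
      exact congrArg Subtype.val this
  have hKC' : ∀ v ∈ C, v ∉ K := fun v hv hvK => (disjoint_left.1 hKC hvK) hv
  refine ⟨fun v => if v ∈ K then e v else e (f v), fun v hv => ?_, fun u hu v hv huv => ?_⟩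
  · dsimp only
    split_ifs with h2
    · exact he1 v h2
    · rw [mem_union] at hv
      exact he1 _ (hf1 v (hv.resolve_left h2))
  · dsimp only
    rw [mem_union] at hu hv
    split_ifs with h2 h3 h3
    · exact fun e' => huv.ne (he2 u h2 v h3 e')
    · have hvC := hv.resolve_left h3
      intro e'
      have := he2 u h2 _ (hf1 v hvC) e'
      rw [this] at huv
      exact hf2 v hvC huv
    · have huC := hu.resolve_left h2
      intro e'
      have := he2 _ (hf1 u huC) v h3 e'
      rw [← this] at huv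
      exact hf2 u huC huv.symm
    · exact absurd huv (hC u (hu.resolve_left h2) v (hv.resolve_left h3))

/-- removing a class of a colouring -/
theorem chi_remove_class (hA : T_CHA) {V : Type} [Fintype V] [DecidableEq V]
    (G : SimpleGraph V) (R : Finset V) (c : V → ℕ) (k i : ℕ) (hi : i < k)
    (hc1 : ∀ v ∈ R, c v < k) (hc2 : ∀ u ∈ R, ∀ v ∈ R, G.Adj u v → c u ≠ c v) :
    chi G (R.filter fun v => c v ≠ i) ≤ k - 1 := by
  obtain ⟨h1, -, -, -, -⟩ := hA V G
  refine (h1 _ _).1 ⟨fun v => if i < c v then c v - 1 else c v, fun v hv => ?_,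
    fun u hu v hv huv => ?_⟩
  · rw [mem_filter] at hv
    have := hc1 v hv.1
    have := hv.2
    dsimp only
    split_ifs <;> omega
  · rw [mem_filter] at hu hv
    have := hc2 u hu.1 v hv.1 huv
    have := hu.2
    have := hv.2
    dsimp only
    split_ifs <;> omega

theorem chi_clique_union (hB : T_CHB) {V : Type} [Fintype V] [DecidableEq V]
    (G : SimpleGraph V) (S : Finset V) : ∀ Q : Finset V, G.IsClique (Q : Set V) →
    (∀ x ∈ Q, ∀ y ∈ S, G.Adj x y) → chi G (Q ∪ S) = Q.card + chi G S := by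
  obtain ⟨-, -, b3, -⟩ := hB V G
  intro Q
  induction Q using Finset.induction_on with
  | empty => intro _ _; simp
  | insert x Q hx ih =>
    intro hQ hS
    rw [coe_insert, SimpleGraph.isClique_insert] at hQ
    have h1 := ih hQ.1 fun y hy => hS y (mem_insert_of_mem hy)
    have hxS : x ∉ S := fun h => G.loopless.irrefl _ (hS x (mem_insert_self _ _) x h)
    rw [insert_union, b3 (Q ∪ S) x, h1, card_insert_of_notMem hx]
    · omega
    · rw [mem_union]
      exact fun h => h.elim hx hxS
    · intro y hy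
      rw [mem_union] at hy
      rcases hy with hy | hy
      · exact hQ.2 y hy fun e => hx (e ▸ hy)
      · exact hS x (mem_insert_self _ _) y hy

/-- CLQ. If the vertices `y` which are complete to the clique `Q` and for which `Q + y` has at most
`χ - |Q| - 2` common neighbours induce a graph of chromatic number at least `a - |Q|`, then the
pair `(a, b)` splits. -/
def T_CLQ : Prop :=
  ∀ (V : Type) [Fintype V] [DecidableEq V] (G : SimpleGraph V) (Q : Finset V) (a b : ℕ)
    (L : Finset V), 2 ≤ a → 2 ≤ b → chi G univ = a + b - 1 → G.IsClique (Q : Set V) →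
    Q.card < a →
    (∀ y ∈ L, (∀ x ∈ Q, G.Adj x y) ∧ (cn G (insert y Q)).card + Q.card + 2 ≤ chi G univ) →
    a - Q.card ≤ chi G L →
    ∃ S T : Finset V, Disjoint S T ∧ chi G S = a ∧ chi G T = b

theorem pf_CLQ (hA : T_CHA) (hB : T_CHB) : T_CLQ := by
  intro V _ _ G Q a b L ha hb ht hQ hQa hL hc
  obtain ⟨a1, a2, a3, a4, a5⟩ := hA V G
  obtain ⟨b1, b2, b3, b4⟩ := hB V G
  obtain ⟨S, hS, hSmin⟩ : ∃ S : Finset V, (S ⊆ L ∧ a - Q.card ≤ chi G S) ∧
      ∀ T : Finset V, T ⊂ S → ¬ (T ⊆ L ∧ a - Q.card ≤ chi G T) := by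
    have hwf : WellFounded (fun S T : Finset V => S ⊂ T) := Finset.isWellFounded_ssubset.wf
    obtain ⟨S, hS, hmin⟩ := hwf.has_min {S : Finset V | S ⊆ L ∧ a - Q.card ≤ chi G S}
      ⟨L, subset_rfl, hc⟩
    exact ⟨S, hS, fun T hT hT2 => hmin T hT2 hT⟩
  have hSne : S.Nonempty := by
    by_contra h
    rw [not_nonempty_iff_eq_empty] at h
    rw [h, a2] at hS
    omega
  obtain ⟨y, hy⟩ := hSne
  have he : chi G (S.erase y) < a - Q.card := by
    by_contra h
    push Not at h
    exact hSmin _ (erase_ssubset hy) ⟨(erase_subset _ _).trans hS.1, h⟩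
  have hins : insert y (S.erase y) = S := insert_erase hy
  have h1 := b1 (S.erase y) y
  rw [hins] at h1
  have hSa : chi G S = a - Q.card := by
    have := hS.2
    omega
  have hea : chi G (S.erase y) = a - Q.card - 1 := by omega
  have hQS : ∀ x ∈ Q, ∀ z ∈ S, G.Adj x z := fun x hx z hz => (hL z (hS.1 hz)).1 x hx
  have hQSd : Disjoint Q S := by
    rw [disjoint_left]
    exact fun x hx hxS => G.loopless.irrefl _ (hQS x hx x hxS)
  have hxa : chi G (Q ∪ S) = a := by
    rw [chi_clique_union hB G S Q hQ hQS, hSa]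
    omega
  set R : Finset V := univ \ (Q ∪ S) with hR
  have hdis : Disjoint (Q ∪ S) R := disjoint_sdiff
  by_cases hk : b ≤ chi G R
  · obtain ⟨T, hT, hTb⟩ := b2 R b hk
    exact ⟨Q ∪ S, T, hdis.mono_right hT, hxa, hTb⟩
  exfalso
  have hk2 : chi G univ ≤ chi G (Q ∪ S) + chi G R := by
    have := a4 (Q ∪ S) R
    rwa [hR, union_sdiff_of_subset (subset_univ _)] at this
  have hkb : chi G R = b - 1 := by omega
  obtain ⟨c, hc1, hc2⟩ := (a1 R _).2 le_rfl
  have hyL := hL y (hS.1 hy)
  have hcard1 : a - Q.card - 1 ≤ (nbr G y ∩ S).card := by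
    rw [← hea]
    exact card_nbr_critical hA G S y hy (by omega)
  have hcard2 : (cn G (insert y Q) \ S).card + (nbr G y ∩ S).card ≤
      (cn G (insert y Q)).card := by
    rw [← card_sdiff_add_card_inter (cn G (insert y Q)) S]
    refine add_le_add le_rfl (card_le_card fun z hz => ?_)
    rw [mem_inter, mem_nbr] at hz
    refine mem_inter.2 ⟨(mem_cn G _ z).2 fun x hx => ?_, hz.2⟩
    rcases mem_insert.1 hx with rfl | hx
    · exact hz.1
    · exact hQS x hx z hz.2
  obtain ⟨i, hi, hi2⟩ : ∃ i ∈ range (chi G R), i ∉ (cn G (insert y Q) \ S).image c := by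
    by_contra hno
    push Not at hno
    have h3 : (range (chi G R)).card ≤ ((cn G (insert y Q) \ S).image c).card :=
      card_le_card fun i hi => hno i hi
    rw [card_range] at h3
    have h4 := h3.trans card_image_le
    have := hyL.2
    omega
  rw [mem_range] at hi
  -- the class `i` is absorbed by `Q + y`
  set C : Finset V := R.filter fun v => c v = i with hCdef
  have hRnot : ∀ v ∈ R, v ∉ Q ∧ v ∉ S := by
    intro v hv
    rw [hR, mem_sdiff, mem_union] at hv
    push Not at hv
    exact hv.2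
  have hCind : Ind G C := by
    intro u hu v hv huv
    rw [hCdef, mem_filter] at hu hv
    exact hc2 u hu.1 v hv.1 huv (hu.2.trans hv.2.symm)
  have hKC : Disjoint (insert y Q) C := by
    rw [disjoint_left]
    intro v hv hvC
    rw [hCdef, mem_filter] at hvC
    rcases mem_insert.1 hv with rfl | hv
    · exact (hRnot v hvC.1).2 hy
    · exact (hRnot v hvC.1).1 hv
  have hab := chi_absorb hA G (insert y Q) C hCind hKC (fun v hv hcn => by
    rw [hCdef, mem_filter] at hv
    apply hi2
    rw [mem_image]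
    exact ⟨v, mem_sdiff.2 ⟨hcn, (hRnot v hv.1).2⟩, hv.2⟩)
  have hyQ : y ∉ Q := fun h => disjoint_left.1 hQSd h hy
  rw [card_insert_of_notMem hyQ] at hab
  have hrem := chi_remove_class hA G R c (chi G R) i hi hc1 hc2
  have huniv : (univ : Finset V) = S.erase y ∪ ((insert y Q ∪ C) ∪ R.filter fun v => c v ≠ i) := by
    ext v
    simp only [mem_univ, true_iff, mem_union, mem_erase, mem_insert, hCdef, mem_filter]
    by_cases hvS : v ∈ S
    · by_cases hvy : v = y
      · exact Or.inr (Or.inl (Or.inl (Or.inl hvy)))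
      · exact Or.inl ⟨hvy, hvS⟩
    · by_cases hvQ : v ∈ Q
      · exact Or.inr (Or.inl (Or.inl (Or.inr hvQ)))
      · have hvR : v ∈ R := by
          rw [hR, mem_sdiff, mem_union]
          exact ⟨mem_univ _, fun h => h.elim hvQ hvS⟩
        by_cases hcv : c v = i
        · exact Or.inr (Or.inl (Or.inr ⟨hvR, hcv⟩))
        · exact Or.inr (Or.inr ⟨hvR, hcv⟩)
  have h6 := a4 (S.erase y) ((insert y Q ∪ C) ∪ R.filter fun v => c v ≠ i)
  have h7 := a4 (insert y Q ∪ C) (R.filter fun v => c v ≠ i)
  rw [← huniv] at h6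
  omega

end Pool.Agent.H39.EAG
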