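import Pool.Agent.H39.EAG.Targets

/-!
# MP_a10695_co: pairs `(a, b)` and edges in few triangles
-/

set_option autoImplicit false

open Finset

namespace Pool.Agent.H39.EAG

/-- DTR. If the neighbours `y` of `x` for which `xy` is in at most `χ - 3` triangles induce a graph
of chromatic number at least `a - 1`, then the pair `(a, b)` splits. -/
def T_DTR : Prop :=
  ∀ (V : Type) [Fintype V] [DecidableEq V] (G : SimpleGraph V) (x : V) (a b : ℕ) (L : Finset V),
    2 ≤ a → 2 ≤ b → chi G univ = a + b - 1 →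
    (∀ y ∈ L, G.Adj x y ∧ (nbr G x ∩ nbr G y).card + 3 ≤ chi G univ) → a - 1 ≤ chi G L →
    ∃ S T : Finset V, Disjoint S T ∧ chi G S = a ∧ chi G T = b

theorem mem_nbr {V : Type} [Fintype V] (G : SimpleGraph V) (x y : V) :
    y ∈ nbr G x ↔ G.Adj x y := by
  simp [nbr]

/-- a critical vertex has neighbours in all classes -/
theorem card_nbr_critical (hA : T_CHA) {V : Type} [Fintype V] [DecidableEq V]
    (G : SimpleGraph V) (S : Finset V) (y : V) (hy : y ∈ S)
    (h : chi G (S.erase y) < chi G S) : chi G (S.erase y) ≤ (nbr G y ∩ S).card := by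
  obtain ⟨h1, -, -, -, -⟩ := hA V G
  obtain ⟨c, hc1, hc2⟩ := (h1 (S.erase y) _).2 le_rfl
  have hsub : range (chi G (S.erase y)) ⊆ (nbr G y ∩ S).image c := by
    intro j hj
    rw [mem_range] at hj
    by_contra hno
    have hcol : Col G S (chi G (S.erase y)) := by
      refine ⟨fun v => if v = y then j else c v, fun v hv => ?_, fun u hu v hv huv => ?_⟩
      · dsimp only
        split_ifs with h2
        · exact hj
        · exact hc1 v (mem_erase.2 ⟨h2, hv⟩)
      · dsimp only
        have key : ∀ w ∈ S, G.Adj y w → c w ≠ j := by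
          intro w hw hyw hcw
          apply hno
          rw [mem_image]
          exact ⟨w, mem_inter.2 ⟨(mem_nbr G y w).2 hyw, hw⟩, hcw⟩
        split_ifs with h2 h3 h3
        · subst h2
          subst h3
          exact (G.loopless.irrefl _ huv).elim
        · subst h2
          exact fun e => key v hv huv e.symm
        · subst h3
          exact key u hu huv.symm
        · exact hc2 u (mem_erase.2 ⟨h2, hu⟩) v (mem_erase.2 ⟨h3, hv⟩) huv
    have := (h1 S _).1 hcol
    omega
  calc chi G (S.erase y) = (range (chi G (S.erase y))).card := (card_range _).symm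
    _ ≤ ((nbr G y ∩ S).image c).card := card_le_card hsub
    _ ≤ (nbr G y ∩ S).card := card_image_le

theorem pf_DTR (hA : T_CHA) (hB : T_CHB) (hM : T_MRG) : T_DTR := by
  intro V _ _ G x a b L ha hb ht hL hc
  obtain ⟨a1, a2, a3, a4, a5⟩ := hA V G
  obtain ⟨b1, b2, b3, b4⟩ := hB V G
  -- a minimal subset of `L` with chromatic number `a - 1`
  obtain ⟨S, hS, hSmin⟩ : ∃ S : Finset V, (S ⊆ L ∧ a - 1 ≤ chi G S) ∧
      ∀ T : Finset V, T ⊂ S → ¬ (T ⊆ L ∧ a - 1 ≤ chi G T) := by
    have hwf : WellFounded (fun S T : Finset V => S ⊂ T) := Finset.isWellFounded_ssubset.wf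
    obtain ⟨S, hS, hmin⟩ := hwf.has_min {S : Finset V | S ⊆ L ∧ a - 1 ≤ chi G S}
      ⟨L, subset_rfl, hc⟩
    exact ⟨S, hS, fun T hT hT2 => hmin T hT2 hT⟩
  have hSne : S.Nonempty := by
    by_contra h
    rw [not_nonempty_iff_eq_empty] at h
    rw [h, a2] at hS
    omega
  obtain ⟨y, hy⟩ := hSne
  have he : chi G (S.erase y) < a - 1 := by
    by_contra h
    push Not at h
    exact hSmin _ (erase_ssubset hy) ⟨(erase_subset _ _).trans hS.1, h⟩
  have hins : insert y (S.erase y) = S := insert_erase hy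
  have h1 := b1 (S.erase y) y
  rw [hins] at h1
  have hSa : chi G S = a - 1 := by
    have := hS.2
    omega
  have hea : chi G (S.erase y) = a - 2 := by omega
  have hxS : x ∉ S := fun hx => G.loopless.irrefl _ (hL x (hS.1 hx)).1
  have hxa : chi G (insert x S) = a := by
    rw [b3 S x hxS fun z hz => (hL z (hS.1 hz)).1, hSa]
    omega
  set R : Finset V := univ \ insert x S with hR
  have hdis : Disjoint (insert x S) R := disjoint_sdiff
  by_cases hk : b ≤ chi G R
  · obtain ⟨T, hT, hTb⟩ := b2 R b hk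
    exact ⟨insert x S, T, hdis.mono_right hT, hxa, hTb⟩
  exfalso
  have hk2 : chi G univ ≤ chi G (insert x S) + chi G R := by
    have := a4 (insert x S) R
    rwa [hR, union_sdiff_of_subset (subset_univ _)] at this
  have hkb : chi G R = b - 1 := by omega
  obtain ⟨c, hc1, hc2⟩ := (a1 R _).2 le_rfl
  have hyx := hL y (hS.1 hy)
  have hcard1 : a - 2 ≤ (nbr G y ∩ S).card := by
    rw [← hea]
    exact card_nbr_critical hA G S y hy (by omega)
  have hcard2 : ((nbr G x ∩ nbr G y) \ S).card + (nbr G y ∩ S).card ≤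
      (nbr G x ∩ nbr G y).card := by
    rw [← card_sdiff_add_card_inter (nbr G x ∩ nbr G y) S]
    refine add_le_add le_rfl (card_le_card fun z hz => ?_)
    rw [mem_inter] at hz
    exact mem_inter.2 ⟨mem_inter.2 ⟨(mem_nbr G x z).2 (hL z (hS.1 hz.2)).1, hz.1⟩, hz.2⟩
  obtain ⟨i, hi, hi2⟩ : ∃ i ∈ range (chi G R), i ∉ ((nbr G x ∩ nbr G y) \ S).image c := by
    by_contra hno
    push Not at hno
    have h3 : (range (chi G R)).card ≤ (((nbr G x ∩ nbr G y) \ S).image c).card :=
      card_le_card fun i hi => hno i hi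
    rw [card_range] at h3
    have h4 := h3.trans card_image_le
    have := hyx.2
    omega
  rw [mem_range] at hi
  have h5 := hM V G x y S R hxS hy hR c (chi G R) i hi hc1 hc2 (fun v hv hci hadj => by
    apply hi2
    rw [mem_image]
    refine ⟨v, ?_, hci⟩
    rw [mem_sdiff, mem_inter, mem_nbr, mem_nbr]
    refine ⟨hadj, fun hvS => ?_⟩
    rw [hR, mem_sdiff] at hv
    exact hv.2 (mem_insert_of_mem hvS))
  omega

end Pool.Agent.H39.EAG
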