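import Mathlib

/-!
# MP_a10695_co: almost all graphs satisfy the Erdos-Lovasz Tihany conjecture. Targets.

Random graphs on `Fin n` are `gr ω` for `ω : Sym2 (Fin n) → Bool`.
-/

set_option autoImplicit false

open Finset Filter Topology

namespace Pool.Agent.H39.EAG

/-! ### chromatic numbers of vertex sets -/

/-- `G` has a proper colouring with `k` colours on `S` -/
def Col {V : Type} (G : SimpleGraph V) (S : Finset V) (k : ℕ) : Prop :=
  ∃ c : V → ℕ, (∀ v ∈ S, c v < k) ∧ ∀ u ∈ S, ∀ v ∈ S, G.Adj u v → c u ≠ c v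

/-- the chromatic number of `G` on `S` -/
noncomputable def chi {V : Type} (G : SimpleGraph V) (S : Finset V) : ℕ := sInf {k | Col G S k}

/-- independent sets -/
def Ind {V : Type} (G : SimpleGraph V) (I : Finset V) : Prop :=
  ∀ u ∈ I, ∀ v ∈ I, ¬ G.Adj u v

/-- the graph `G` on the set `S` -/
def rs {V : Type} (G : SimpleGraph V) (S : Finset V) : SimpleGraph V where
  Adj u v := G.Adj u v ∧ u ∈ S ∧ v ∈ S
  symm := ⟨fun _ _ h => ⟨h.1.symm, h.2.2, h.2.1⟩⟩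
  loopless := ⟨fun _ h => G.loopless.irrefl _ h.1⟩

open Classical in
/-- an optimal colouring of `G` on `S`, it depends only on `rs G S` and `S` -/
noncomputable def opt {V : Type} (G : SimpleGraph V) (S : Finset V) : V → ℕ :=
  if h : Col (rs G S) S (chi (rs G S) S) then Classical.choose h else fun _ => 0

/-- CHA. Colourings and the chromatic number. -/
def T_CHA : Prop :=
  ∀ (V : Type) [Fintype V] [DecidableEq V] (G : SimpleGraph V),
    (∀ S k, Col G S k ↔ chi G S ≤ k) ∧ chi G ∅ = 0 ∧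
    (∀ S T : Finset V, S ⊆ T → chi G S ≤ chi G T) ∧
    (∀ S T : Finset V, chi G (S ∪ T) ≤ chi G S + chi G T) ∧
    (∀ I : Finset V, Ind G I → chi G I ≤ 1)

/-- CHB. More on the chromatic number. -/
def T_CHB : Prop :=
  ∀ (V : Type) [Fintype V] [DecidableEq V] (G : SimpleGraph V),
    (∀ (S : Finset V) v, chi G (insert v S) ≤ chi G S + 1) ∧
    (∀ (S : Finset V) k, k ≤ chi G S → ∃ T ⊆ S, chi G T = k) ∧
    (∀ (S : Finset V) x, x ∉ S → (∀ y ∈ S, G.Adj x y) → chi G (insert x S) = chi G S + 1) ∧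
    ∀ (S : Finset V) K, (∀ I ⊆ S, Ind G I → I.card ≤ K) → S.card ≤ chi G S * K

/-- CHC. The chromatic number of Mathlib. -/
def T_CHC : Prop :=
  ∀ (V : Type) [Fintype V] [DecidableEq V] (G : SimpleGraph V),
    (∀ S : Finset V, (G.induce (S : Set V)).chromaticNumber = (chi G S : ℕ∞)) ∧
    G.chromaticNumber = (chi G univ : ℕ∞)

/-- OPT. The chosen optimal colouring. -/
def T_OPT : Prop :=
  ∀ (V : Type) [Fintype V] [DecidableEq V] (G : SimpleGraph V) (S : Finset V),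
    chi (rs G S) S = chi G S ∧ (∀ v ∈ S, opt G S v < chi G S) ∧
    (∀ u ∈ S, ∀ v ∈ S, G.Adj u v → opt G S u ≠ opt G S v) ∧
    (∀ i < chi G S, ∃ v ∈ S, opt G S v = i) ∧
    ∀ G' : SimpleGraph V, (∀ u ∈ S, ∀ v ∈ S, G.Adj u v ↔ G'.Adj u v) →
      chi G S = chi G' S ∧ opt G S = opt G' S

/-- MRG. The merging lemma. -/
def T_MRG : Prop :=
  ∀ (V : Type) [Fintype V] [DecidableEq V] (G : SimpleGraph V) (x y : V) (S R : Finset V),
    x ∉ S → y ∈ S → R = univ \ insert x S → ∀ (c : V → ℕ) (k i : ℕ), i < k →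
    (∀ v ∈ R, c v < k) → (∀ u ∈ R, ∀ v ∈ R, G.Adj u v → c u ≠ c v) →
    (∀ v ∈ R, c v = i → ¬ (G.Adj x v ∧ G.Adj y v)) →
    chi G univ ≤ chi G (S.erase y) + 1 + k

/-! ### the deterministic part -/

open Classical in
/-- the neighbours of `x` up to `m` -/
noncomputable def nb {n : ℕ} (G : SimpleGraph (Fin n)) (x m : Fin n) : Finset (Fin n) :=
  univ.filter fun v => G.Adj x v ∧ v ≤ m

open Classical in
/-- the neighbours of `x` -/
noncomputable def nbr {V : Type} [Fintype V] (G : SimpleGraph V) (x : V) : Finset V :=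
  univ.filter fun v => G.Adj x v

/-- the rest -/
noncomputable def Rx {n : ℕ} (G : SimpleGraph (Fin n)) (x m : Fin n) : Finset (Fin n) :=
  univ \ insert x (nb G x m)

/-- every class of the optimal colouring of the rest contains a common neighbour of `x`, `m` -/
def Bad {n : ℕ} (G : SimpleGraph (Fin n)) (x m : Fin n) : Prop :=
  G.Adj x m ∧ ∀ i < chi G (Rx G x m), ∃ v ∈ Rx G x m, opt G (Rx G x m) v = i ∧
    G.Adj x v ∧ G.Adj m v

/-- the conclusion of the conjecture, for all pairs `(a, b)` -/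
def ELT {V : Type} (G : SimpleGraph V) : Prop :=
  ∀ a b : ℕ, 2 ≤ a → 2 ≤ b → G.chromaticNumber = ((a + b - 1 : ℕ) : ℕ∞) →
    ∃ S T : Set V, Disjoint S T ∧ (G.induce S).chromaticNumber = (a : ℕ∞) ∧
      (G.induce T).chromaticNumber = (b : ℕ∞)

/-- DET. The deterministic part. -/
def T_DET : Prop :=
  ∀ (n L : ℕ) (G : SimpleGraph (Fin n)), 2 * L + 1 ≤ chi G univ →
    (∃ x, chi G univ ≤ 2 * chi G (nbr G x) + 1) →
    (∀ x m, L ≤ chi G (Rx G x m) → ¬ Bad G x m) → ELT G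

/-! ### random graphs -/

/-- the sample space -/
abbrev Om (n : ℕ) := Sym2 (Fin n) → Bool

/-- the random graph -/
def gr {n : ℕ} (ω : Om n) : SimpleGraph (Fin n) where
  Adj i j := i ≠ j ∧ ω s(i, j) = true
  symm := ⟨fun i j h => ⟨h.1.symm, by rw [Sym2.eq_swap]; exact h.2⟩⟩
  loopless := ⟨fun _ h => h.1 rfl⟩

open Classical in
/-- the number of elements with a property -/
noncomputable def cnt {Ω : Type} [Fintype Ω] (P : Ω → Prop) : ℝ := ((univ.filter P).card : ℝ)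

/-- FIB. Bounds on the fibres give a bound. -/
def T_FIB : Prop :=
  ∀ (I : Type) [Fintype I] [DecidableEq I] (F : Finset I) (E : (I → Bool) → Prop) (ε : ℝ),
    (∀ ω : I → Bool, cnt (fun f : I → Bool => (∀ i, i ∉ F → f i = ω i) ∧ E f) ≤ ε * 2 ^ F.card) →
    cnt E ≤ ε * 2 ^ Fintype.card I

/-- CNT. All classes are met. -/
def T_CNT : Prop :=
  ∀ (W : Type) [Fintype W] [DecidableEq W] (K k : ℕ) (c : W → ℕ),
    (∀ i < k, (univ.filter fun v => c v = i).card ≤ K) →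
    cnt (fun g : W → Bool × Bool => ∀ i < k, ∃ v, c v = i ∧ g v = (true, true)) ≤
      (1 - (3 / 4 : ℝ) ^ K) ^ k * 4 ^ Fintype.card W

/-- LMB. `Bad` is improbable. -/
def T_LMB : Prop :=
  ∀ (n K L : ℕ) (x m : Fin n),
    cnt (fun ω : Om n => (∀ I, Ind (gr ω) I → I.card ≤ K) ∧ L ≤ chi (gr ω) (Rx (gr ω) x m) ∧
      Bad (gr ω) x m) ≤ (1 - (3 / 4 : ℝ) ^ K) ^ L * 2 ^ Fintype.card (Sym2 (Fin n))

/-- ALP. The independence number. -/
def T_ALP : Prop :=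
  ∀ n l : ℕ, n ≤ 2 ^ l →
    cnt (fun ω : Om n => ∃ I : Finset (Fin n), I.card = 2 * l + 1 ∧ Ind (gr ω) I) ≤
      1 / (2 * l + 1).factorial * 2 ^ Fintype.card (Sym2 (Fin n))

/-- IBL. There is an independent block. -/
def T_IBL : Prop :=
  ∀ (n r L : ℕ) (X : Fin L → Finset (Fin n)), (∀ j, (X j).card = r) →
    (∀ i j, i ≠ j → Disjoint (X i) (X j)) →
    cnt (fun ω : Om n => ∀ j, ¬ Ind (gr ω) (X j)) ≤
      (1 - (1 / 2 : ℝ) ^ (r.choose 2)) ^ L * 2 ^ Fintype.card (Sym2 (Fin n))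

/-- the vertex `i` fails for the block `X` -/
def Fl {n : ℕ} (G : SimpleGraph (Fin n)) (X : Finset (Fin n)) (i : Fin n) : Prop :=
  chi G (nbr G i \ X) < chi G (univ \ (X ∪ nbr G i))

/-- BLK. A failing block. -/
def T_BLK : Prop :=
  ∀ (n r : ℕ) (X : Finset (Fin n)), X.card = r →
    cnt (fun ω : Om n => Ind (gr ω) X ∧ ∀ i ∈ X, Fl (gr ω) X i) ≤
      (1 / 2 : ℝ) ^ (r.choose 2) * (1 / 2 : ℝ) ^ r * 2 ^ Fintype.card (Sym2 (Fin n))

/-- DTX. A block which does not fail. -/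
def T_DTX : Prop :=
  ∀ (n : ℕ) (G : SimpleGraph (Fin n)) (X : Finset (Fin n)) (i : Fin n), i ∈ X → Ind G X →
    ¬ Fl G X i → chi G univ ≤ 2 * chi G (nbr G i) + 1

/-- NBH. Some vertex has a neighbourhood with a large chromatic number. -/
def T_NBH : Prop :=
  ∀ n r L : ℕ, 1 ≤ r → r * L ≤ n →
    cnt (fun ω : Om n => ∀ x, 2 * chi (gr ω) (nbr (gr ω) x) + 1 < chi (gr ω) univ) ≤
      ((1 - (1 / 2 : ℝ) ^ (r.choose 2)) ^ L + L * ((1 / 2 : ℝ) ^ (r.choose 2) * (1 / 2 : ℝ) ^ r)) *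
        2 ^ Fintype.card (Sym2 (Fin n))

/-! ### numbers -/

/-- NM1. -/
def T_NM1 : Prop :=
  Tendsto (fun n : ℕ => (n : ℝ) ^ 2 *
    (1 - (3 / 4 : ℝ) ^ (2 * Nat.clog 2 n)) ^ (n / (2 * Nat.clog 2 n) / 3)) atTop (𝓝 0)

/-- NM2. -/
def T_NM2 : Prop :=
  Tendsto (fun n : ℕ => 1 / ((2 * Nat.clog 2 n + 1).factorial : ℝ)) atTop (𝓝 0)

/-- NM3. -/
def T_NM3 : Prop :=
  ∀ ε : ℝ, 0 < ε → ∃ r L : ℕ, 1 ≤ r ∧
    (1 - (1 / 2 : ℝ) ^ (r.choose 2)) ^ L + L * ((1 / 2 : ℝ) ^ (r.choose 2) * (1 / 2 : ℝ) ^ r) < ε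

/-- FAI. The bound for the failing graphs. -/
def T_FAI : Prop :=
  ∀ n r L : ℕ, 1 ≤ r → r * L ≤ n → 1 ≤ n / (2 * Nat.clog 2 n) / 3 →
    cnt (fun ω : Om n => ¬ ELT (gr ω)) ≤
      (1 / ((2 * Nat.clog 2 n + 1).factorial : ℝ) +
        (n : ℝ) ^ 2 * (1 - (3 / 4 : ℝ) ^ (2 * Nat.clog 2 n)) ^ (n / (2 * Nat.clog 2 n) / 3) +
        ((1 - (1 / 2 : ℝ) ^ (r.choose 2)) ^ L +
          L * ((1 / 2 : ℝ) ^ (r.choose 2) * (1 / 2 : ℝ) ^ r))) * 2 ^ Fintype.card (Sym2 (Fin n))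

/-- BRG. Each graph is `gr ω` for `2 ^ n` elements `ω`. -/
def T_BRG : Prop :=
  ∀ (n : ℕ) (P : SimpleGraph (Fin n) → Prop),
    cnt (fun ω : Om n => P (gr ω)) = 2 ^ n * (Nat.card {G : SimpleGraph (Fin n) // P G} : ℝ)

/-- The theorem. -/
def T_MAIN : Prop :=
  Tendsto (fun n : ℕ => (Nat.card {G : SimpleGraph (Fin n) // ELT G} : ℝ) /
    (Nat.card (SimpleGraph (Fin n)) : ℝ)) atTop (𝓝 1)

end Pool.Agent.H39.EAG
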